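import Mathlib
import Pool.Agent.K6.H94.CO.Main

/-!
# The Tate conjecture for the products `A ^ r × U`, `A` an abelian variety with large monodromy and `U`
an arbitrary smooth variety: reduction to `r ≤ dim U`

Let `k` be a finitely generated field, `Γ` its Galois group, `ℓ` a prime number invertible in `k`, and
`K` an extension of the field of `ℓ`-adic numbers. Let `A` be an abelian variety over `k`,
`V = V_ℓ (A) ⊗ K` with the action `ρ` of `Γ`, let `ω` be the Weil pairing for a polarization and `χ` the
cyclotomic character. Let `V` be the orthogonal sum of stable subspaces `W i`, for instance
`A = ∏ A i` and `W i = V_ℓ (A i) ⊗ K`.

*Large monodromy* (`IsLarge`). The Zariski closure of the image of each open subgroup of `Γ` contains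
the transvections `x ↦ x + ω (v, x) v` for all `v` in `W i`, hence `∏ Sp (W i)`. So `A` may be any
product of abelian varieties `A i`, pairwise not isogenous over the algebraic closure, such that the
monodromy group of `A i` is the full group of symplectic similitudes: over fields of characteristic
zero those with endomorphism ring `ℤ` whose dimension is odd or `2` or `6` (Serre), for instance all
elliptic curves without complex multiplication, and the generic ones of every dimension; powers are
included below. For real multiplication by a field `E` (`dim A = d [E : ℚ]`, `d` odd) the `W i` are the
pieces of `V` on which `E` acts through the embeddings of `E` in `K`.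

*The smooth variety.* Let `U` be an arbitrary smooth variety over `k`, proper or not, of dimension
`d`, and `M = H^b (U, K(i))`, or any other representation `τ` of `Γ`.

*The cocharacter* (`HasCocharacter`). In characteristic zero embed `k` into a finite extension of the
field of `ℓ`-adic numbers, and let `K` contain the completion of its algebraic closure. By Sen the
Zariski closure of the image of each open subgroup in the automorphisms of `V × M` contains the
Hodge-Tate cocharacter. Its weights on `V` are `0` and `1`, and on `M` they lie in an interval with
`n = d + 1` elements, since `H^(b - p) (X, Ω^p (log D)) = 0` for `p > d` and for `b - p > d`. More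
precisely one may take `n = w + 1`, where the level `w` is the difference of the largest and the
smallest Hodge-Tate weight of `M` (for proper `U`, the largest `|p - q|` with
`H^q (U, Ω^p) ≠ 0`, `p + q = b`). In positive characteristic the same holds if `A` is ordinary at some
place: the slopes of a Frobenius element define (Frobenius tori) a cocharacter of the Zariski closure
of the group generated by it, the slopes on `V` are `0` and `1` and those on `M` lie in an interval of
length `d`, by Deligne. Therefore the definition allows rational weights `(a + j) / N` on `M`, in a half-open interval
of length `n`. Nothing else is assumed on `M`, neither semisimplicity nor purity.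

*The theorem* (`ComeFromLowDegree`). The classes in `H^N (A ^ r) ⊗ M` are the alternating maps in `N`
variables from `V ^ r` to `M`. Those which are fixed by an open subgroup of `Γ` are linear combinations
of products of Tate classes of degree two on `A ^ r` (these are divisor classes by Tate, Zarhin and
Faltings) and of inverse images, for the coordinate projections `A ^ r × U → A ^ a × U` with `a < n`,
of Tate classes `ψ` in `H^a (A ^ a) ⊗ M (-m)`.

**So for all abelian varieties `A` with large monodromy and all smooth varieties `U` the Tate
conjecture for `A ^ r × U`, for all `r` and in all codimensions, is equivalent to the Tate conjecture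
for `A ^ (dim U) × U`**, and even for `A ^ w × U` if the cohomology of `U` has level at most `w`. In
particular:

* if `U` is a curve (smooth, of arbitrary genus, proper or not) the Tate conjecture is true for
  `A ^ r × U` for all `r` and in all codimensions: for `a = 0` the classes `ψ` are those of points and
  of `U`, and for `a = 1` they are homomorphisms from the Tate module of `A` to `H^1 (U)`, which come
  from homomorphisms to the Jacobian of the completion, by Tate, Zarhin and Faltings; the same holds if
  the odd cohomology of `U` is, by algebraic correspondences, a sum of Tate twists of `H^1` of abelian
  varieties, and the even cohomology is spanned by classes of cycles, for instance for cubic threefolds;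
* if `U` is a surface all Tate classes of `A ^ r × U` for all `r` are algebraic if and only if those on
  `A × A × U` are.

The bound is sharp: for `U = A ^ (n - 1)`, of level `n - 1` if `b = n - 1`, the class of the diagonal
of `A ^ (n - 1) × U` has a component in `(V ^*) ^ {⊗ (n - 1)} ⊗ M`, the identity up to a twist, which is
not in the ideal generated by the forms of degree two on the first factor.

*The proof.* Let `φ` be a multilinear map from `V ^ κ` to `M` which is equivariant up to the character
`χ ^ m`. The closure preserves the space of the components `l ∘ φ`, so it is a representation of
`∏ Sp (W i)`, with the weights of the cocharacter in an interval of length less than `n`. If `κ` has at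
least `n` elements, then `φ` vanishes on the tuples of vectors in one of the two eigenspaces of the
cocharacter, which are Lagrangian subspaces. It follows, by complete reducibility, the first
fundamental theorem and a combinatorial lemma (`Pool.Agent.Y128.GT.Base`), that the components of `φ`
belong to the ideal generated by the forms of degree two on the `W i`. On this ideal the operator
`D = ∑ ω_i ∘ (contraction of two variables with ω_i)` is invertible, since in a symplectic basis it is
given by a sum of positive semidefinite symmetric rational matrices; its inverse is a polynomial in
`D`, so it is equivariant, and `φ = ∑ ω_i (v_p, v_q) ψ` with coefficients `ψ` which are equivariant up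
to `χ ^ (m + 1)`. One concludes by induction.
-/

set_option autoImplicit false

namespace Pool.Agent.Results.MP_2a05c8_ag.BoundedByLevel

open Module Pool.Agent.K6.H94.CO

/-- **Tate classes on the products of powers of abelian varieties with large monodromy with arbitrary
smooth varieties: they come from the powers `A ^ a` with `a < n`, if the weights of the cohomology of
the smooth variety lie in a half-open interval of length `n`.** -/
theorem result {K : Type} [Field K] [CharZero K] {V : Type} [AddCommGroup V] [Module K V]
    [FiniteDimensional K V] {M : Type} [AddCommGroup M] [Module K M] {Γ : Type} [Group Γ]
    (ρ : Representation K Γ V) (τ : Representation K Γ M) (χ : Γ →* K)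
    (ω : V →ₗ[K] V →ₗ[K] K) (halt : ∀ v, ω v v = 0) (hnd : ∀ u, (∀ v, ω v u = 0) → u = 0)
    (hωρ : ∀ s u v, ω (ρ s u) (ρ s v) = χ s * ω u v)
    {ι : Type} [Fintype ι] (W : ι → Submodule K V) (hspan : ⨆ i, W i = ⊤)
    (horth : ∀ i j, i ≠ j → ∀ u ∈ W i, ∀ v ∈ W j, ω u v = 0)
    (hstab : ∀ i s, ∀ v ∈ W i, ρ s v ∈ W i)
    (hlarge : IsLarge ρ ω W) {n : ℕ} (hco : HasCocharacter ρ τ n) :
    ComeFromLowDegree ρ τ χ n := by
  classical
  exact comeFromLowDegree ω halt hnd hωρ W hspan horth hstab hlarge hco

end Pool.Agent.Results.MP_2a05c8_ag.BoundedByLevel
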