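import Pool.Agent.K6.H18.Cubic.Linear

/-!
# The Tate conjecture for smooth varieties: reduction to explicit smooth cubic hypersurfaces

Let `k` be a field, `S` a countable subset such that `k` is a separable algebraic extension of the
subfield generated by `S`, and `S'` a subset which generates `k`. If `k` is finitely generated, `S`
may be a separating transcendence basis over the prime field, and `S'` may be finite. If `k` is a
number field or a finite field, `S` may be empty.

The hypersurfaces. For polynomials `e_1, …, e_r`, `r > 0`, in `k[x_1, …, x_m]`, each of one of the
forms `x_a - x_b x_c`, `x_a - (x_b + x_c)`, `x_a - 1`, `x_a - s` with `s` in `S`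
(`IsElementary S e`), let `V(e)` (`Hypersurface e`) be the hypersurface
`∑ u_j e_j(x) = w (1 - w)`
in the affine space with coordinates `x_i`, `u_j`, `w`. It is smooth of dimension `m + r`, integral,
rational and of degree at most three (`IsRationalHypersurface e`). If `S` is empty then the
coefficients of these equations are `0`, `1`, `-1`.

The theories. `BM k`: Borel-Moore homology theories on the affine schemes of finite type over `k`,
with push-forward along closed immersions, pull-back along smooth morphisms, localization sequences,
homotopy invariance, and the usual compatibilities. `M` and `T` are such theories, `c : M → T` is a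
morphism, and `act g`, for `g` in `G`, are endomorphisms of `T`. The case in point:
* `M.H B a b` is Bloch's higher Chow group `CH_b(Spec B, a)`, tensored with `ℚ_ℓ`;
* `T.H B a b` is the `ℓ`-adic Borel-Moore homology of `Spec B` over the separable closure of `k` in
  degree `a + 2b` with coefficients `ℚ_ℓ(b)`; for `B` smooth of pure dimension `d` this is the
  `ℓ`-adic cohomology in degree `2(d-b) - a` with coefficients `ℚ_ℓ(d-b)`;
* `c` is the cycle class map and `G` is the absolute Galois group of `k`.
The required properties are known (Bloch; SGA 4 and 5, Laumon, Jannsen). `Tate c act B b` says that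
every Galois invariant class in degree `2b` is a combination of classes of cycles of dimension `b`;
this is obvious for `B = k` (a hypothesis in the last part).

For a variety `X` over `k` the statement `TX X b` is the same for `X`; for `X` smooth of pure
dimension `d` it is the statement `T^(d-b)(X)` of the problem. `𝒱` is the class of varieties with an
ample family of line bundles. It contains all smooth varieties and all quasi-projective ones, in
particular the affine ones, and every variety in `𝒱` has a torsor under a vector bundle which is
affine (Jouanolou, Thomason), which gives `IsExtensionOf`.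

Theorem. Over every such field `k`, of any characteristic, the following are equivalent:
* the Tate conjecture for all smooth varieties over `k`;
* Jannsen's form of the Tate conjecture for all varieties in `𝒱`, possibly singular;
* the Tate conjecture for the smooth rational cubic hypersurfaces `V(e)`, `e` elementary with
  constants in `S`.
For every variety `X` in `𝒱`, singular or not, there are a hypersurface `V(e)`, with constants in
`S'`, and a number `n` with: for all `b`, the Tate conjecture for `X` and cycles of dimension `b` is
equivalent to the Tate conjecture for `V(e)` and cycles of dimension `b + n`.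

Moreover there is one sequence `V_1, V_2, …` of hypersurfaces `V(e)` with constants in `S` (`v N` is
the system `e` of `V_N`), which depends on `k` and `S` only and not on `ℓ`, such that the Tate
conjecture for all smooth varieties over `k` is true if it is true for infinitely many `V_N`. In fact for every `X` in `𝒱` and all but finitely many
`N` there is an `n` such that for all `b` the Tate conjecture for `V_N` and cycles of dimension
`b + n` implies the one for `X` and cycles of dimension `b`.

There is no resolution of singularities and no semisimplicity of the Galois action in the proof. For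
number fields and for finite fields the third statement is about an explicit countable list of
equations with coefficients `0`, `1`, `-1`, the same for all these fields. If `k = ℚ` then it is
equivalent, by theorems of Deligne and Jannsen, to the Tate conjecture for all varieties over all
finitely generated fields of characteristic zero.

Relation with the starting library: `MP_fc2ced_ag.CubicHypersurfaces` treats the Schur finiteness of
motives with the hypersurfaces `T(x, y, z) = 1`, that is `∑ u_j e_j = 1`. That scheme is an affine
bundle over the complement of `e = 0`, cycles on `e = 0` become elements of `CH(-, 1)`, and the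
Tate conjecture for cycles is lost; with `w (1 - w)` on the right it is kept.

Steps of the proof. (1) For every ring `B` and `e_1, …, e_r` in `B`, the scheme
`Spec B[u_1, …, u_r, w] / (∑ u_j e_j - w (1 - w))` is smooth over `Spec B` of relative dimension `r`.
If some `e_j` is invertible, it is an affine space over `Spec B`; if all `e_j` vanish, it is the
disjoint union of two affine spaces. (2) By induction on the number of nonzero `e_j`, with a diagram
chase in the localization sequences, its Borel-Moore homology is the direct sum of that of `Spec B`,
by pull-back, and that of `Spec B/(e_1, …, e_r)`, by pull-back to affine space and push-forward.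
(3) Every algebra of finite type over `k` is `k[x_1, …, x_m]/(e_1, …, e_r)` with `e_j` as above, with
constants in `S'`. (4) If every relation `x_a - s` is replaced by the minimal polynomial of `s` over
the subfield generated by `S`, the algebra becomes a direct factor of the new one, which has a
presentation with constants in `S`; the homology of a disjoint union is the direct sum. (5) `V_N`
belongs to the disjoint union of the first `N` hypersurfaces of an enumeration of all `V(e)`. All
inclusions and projections commute with the cycle map and the Galois action.
-/

set_option autoImplicit false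

open AlgebraicGeometry CategoryTheory MvPolynomial

namespace Pool.Agent.Results.MP_2a05c8_ag.CubicHypersurfaces

open Pool.Agent.K6.H18.Cubic Pool.Agent.K6.H18.Cubic.Alg

/-- The Tate conjecture for `Spec B` and cycles of dimension `b`: every Galois invariant class is
the class of a cycle (with coefficients). -/
def Tate {k : Type} [CommRing k] {M T : BM k} (c : M.Hom T) {G : Type} (act : G → T.Hom T)
    (B : Alg k) (b : ℤ) : Prop :=
  ∀ y : T.H B 0 b, (∀ g, (act g).mapf y = y) → ∃ x : M.H B 0 b, c.mapf x = y

/-- The hypersurface number `N` of the sequence as a scheme over `k`. -/
noncomputable def member {k : Type} [CommRing k] (v : ℕ → EqnSystem k) (N : ℕ) :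
    Over (Spec (CommRingCat.of k)) :=
  specOf (Hypersurface (v N).eqs)

/-- The conjecture `TX` for all `X` in `𝒱` is reduced to the sequence `v`. -/
structure IsReduced {k : Type} [CommRing k] (S : Set k) (v : ℕ → EqnSystem k)
    (𝒱 : Over (Spec (CommRingCat.of k)) → Prop) (TX : Over (Spec (CommRingCat.of k)) → ℤ → Prop) :
    Prop where
  tfae : ∀ I : Set ℕ, I.Infinite → List.TFAE [
    ∀ X, IsSmoothVariety X → ∀ b, TX X b,
    ∀ X, 𝒱 X → ∀ b, TX X b,
    ∀ (m r : ℕ) (e : Fin r → MvPolynomial (Fin m) k), IsElementary S e →
      ∀ b, TX (specOf (Hypersurface e)) b,
    ∀ N ∈ I, ∀ b, TX (member v N) b]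
  instances : ∀ X, 𝒱 X → ∃ N₀ : ℕ, ∀ N ≥ N₀, ∃ n : ℕ, ∀ b, TX (member v N) (b + n) → TX X b

lemma inherited_tate {k : Type} [Field k] {M T : BM k} (c : M.Hom T) {G : Type}
    (act : G → T.Hom T) : Inherited (Tate c act) := by
  rintro B C n ⟨s, hs, h1, h2⟩ b h y hy
  obtain ⟨x, hx⟩ := h (s.inclf y) (fun g => by rw [h1 _ _ (act g), hy g])
  exact ⟨s.projf x, by rw [h2 _ _ c, hx, hs]⟩

/-- The Tate conjecture for smooth varieties is equivalent, instance by instance, to the Tate
conjecture for explicit smooth rational cubic hypersurfaces in affine spaces, and infinitely many
members of one sequence of these hypersurfaces suffice. -/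
theorem result {k : Type} [Field k] (S S' : Set k) (hS : S.Countable)
    [Algebra.IsSeparable (Subfield.closure S) k] (hS' : Subfield.closure S' = ⊤) :
    (∀ (m r : ℕ) (e : Fin r → MvPolynomial (Fin m) k), IsElementary Set.univ e →
      IsRationalHypersurface e) ∧
    ∃ v : ℕ → EqnSystem k, (∀ N, IsElementary S (v N).eqs) ∧
      ∀ (M T : BM k) (c : M.Hom T) (G : Type) (act : G → T.Hom T)
        (𝒱 : Over (Spec (CommRingCat.of k)) → Prop) (TX : Over (Spec (CommRingCat.of k)) → ℤ → Prop),
        (∀ X, IsSmoothVariety X → 𝒱 X) → IsExtensionOf (Tate c act) 𝒱 TX →
        IsReduced S v 𝒱 TX ∧ ((∀ b, Tate c act (base k) b) →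
          ∀ X, 𝒱 X → ∃ (m r n : ℕ) (e : Fin r → MvPolynomial (Fin m) k), IsElementary S' e ∧
            ∀ b, TX X b ↔ TX (specOf (Hypersurface e)) (b + n)) := by
  obtain ⟨v, hv, -, h⟩ := exists_sequence_inherited (k := k) hS
  refine ⟨fun _ _ e he => isRationalHypersurface e he, v, hv,
    fun M T c G act 𝒱 TX h𝒱 hTX => ⟨?_, fun hk X hX => ?_⟩⟩
  · obtain ⟨h1, h2⟩ := h _ (inherited_tate c act) 𝒱 TX hTX
    refine ⟨fun I hI => ?_, h2⟩
    have h3 := h1 I hI
    have h01 := h3.out 0 1
    have h12 := h3.out 1 2
    have h13 := h3.out 1 3
    tfae_have 1 ↔ 2 :=
      ⟨fun h1 => h01.1 fun X _ hX => h1 X hX, fun h1 X hX => h01.2 h1 X (h𝒱 X hX) hX⟩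
    tfae_have 2 ↔ 3 := h12
    tfae_have 2 ↔ 4 := h13
    tfae_finish
  · have hP : SplitsP (fun (B : Type) [CommRing B] [Algebra k B] b => Tate c act ⟨B⟩ b) :=
      isAdditive_tate.splitsP_bundled c act 0
    obtain ⟨m, r, n, e, he, -, h⟩ := exists_hypersurface hS' hP.toSplits hk hTX X hX
    exact ⟨m, r, n, e, he, h⟩

end Pool.Agent.Results.MP_2a05c8_ag.CubicHypersurfaces
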