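import Mathlib
import Pool.Agent.K6.H94.XB.TRes

/-!
# The Tate conjecture for the products `U × X ^ n`: an **explicit** number of factors for all smooth `U` of
bounded dimension and all `X` with bounded Betti numbers

Let `k` be **any** finitely generated field, `ℓ` a prime number invertible in `k`, and `X` **any** smooth
projective variety over `k` whose `ℓ`-adic cohomology is a semisimple Galois representation (for instance
all abelian varieties (Tate, Zarhin, Mori, Faltings), products of curves, K3 surfaces; conjecturally all
varieties).

**Theorem.** Let `b = ∑ b_i (X)`, `c = 2 lcm (1, …, b)`, `w₀ = c dim X / 2`, `d` a natural number,
`w = c d / 2`, and `T(d) = (2 (b ^ 2 + 2) (2 w₀ + w + 2)) ^ (2 (b ^ 2 + 1))`. Assume that the Tate conjecture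
holds for the powers `X ^ m`, `m ≤ N`, where `N` is a certain number which does not depend on `d` (see
below; for example that it holds for all the powers of `X`). Then it holds for all the powers of `X`, and for
**all** finitely generated extensions `k'` of `k` and **all** smooth varieties `U` over `k'` of dimension at
most `d`, proper or not: if the Tate conjecture holds for `U × X ^ m` for all `m ≤ T(d)`, then it holds for
`U × X ^ n` for **all** `n` (in all codimensions, over all finite extensions of `k'`). The same holds for
**all** smooth `U`, of **any** dimension, for the classes of degree at most `d` in `U`, that is in
`⊕_{j ≤ d} H^j(U) ⊗ H(X ^ n)`: take `M = ⊕_{j ≤ d} H^j(U, ℚ_ℓ)(j/2)` below.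

**The number `T(d)` is explicit and depends only on the Betti numbers and the dimension of `X` and on `d`**: it
is good for all finitely generated fields `k` of all characteristics, all primes `ℓ`, all these `X` and
all these `U`. The number `N` depends only on a set of cocharacters of `GL_b` up to conjugation over an
algebraically closed field. For given `b` and `dim X` there are only finitely many such sets up to
conjugation (see below), so `N` depends only on the Betti numbers and the dimension of `X`. (`N` comes from
Hilbert's theorem; bounds are known in invariant theory.)

It suffices to assume the Tate conjecture for the single variety `U × X ^ M`, `M = max (N, T(d))`, since the others are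
retracts (inverse images for the projections and restriction to points). Nothing is assumed about the
monodromy group of `X` except that it is reductive, and nothing at all about the Galois representation on
the cohomology of `U`: it may be mixed and not semisimple, and its dimension is not bounded. For a single
pair `(X, U)` with semisimple cohomology the existence of some `N` follows from Hilbert's finiteness
theorem; the point is the uniformity and the explicit number. (For powers of `X` alone, and for Frobenius over finite fields,
there are theorems of this kind in the starting files, and for Hodge classes in
`MP_90e98f_ag.OnePowerSuffices`, uniform in `U` but not in `X`, and proved with the polarisation. The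
proof here is purely algebraic.)

*The representations.* Replace `k` by a finite extension such that `ℚ_ℓ(1/2)` is defined. Let `Γ` be the
Galois group of `k'`, `K = ℚ_ℓ`, `V = ⊕ H^i(X, ℚ_ℓ)(i/2)`, with the action `ρ`, the parity `p` of the
degrees and the form `B(x, y) = ∫ x ∪ y` of Poincaré duality, and `M = ⊕ H^j(U, ℚ_ℓ)(j/2)`, with the
action `τ` and the parity `q` of the degrees. By Künneth
`V^{⊗ n} ⊗ M = ⊕ H^j(X ^ n × U, ℚ_ℓ)(j/2)`, and the elements of even degree `j` fixed by an open subgroup
are the Tate classes (`IsEvenTateM`; `IsEvenTate` for `U` a point; in characteristic zero there are no
nonzero elements of odd degree fixed by an open subgroup).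

*Algebraic classes* (`IsSystem`). Let `Cl n` and `S n` be the spaces spanned by the algebraic classes in
`V^{⊗ n}` and in `V^{⊗ n} ⊗ M`. They are stable under exterior products, under permutations of the
factors `X` (with the signs `ksgn` of the Künneth formula) and under the correspondences
`y ↦ pr_*(pr^* a ∪ pr^* y)` for `a` in `Cl (n + m)`, which are given by contraction with `B` (with the
sign `ksign` from the multiplication of the tensors). The theorem holds for **all** systems of subspaces
with these properties, so it is a theorem on Tate classes: those on all the varieties `U × X ^ n` are
generated by those on the `U × X ^ m` with `m ≤ T(d)` and on the `X ^ m` with `m ≤ N`.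

*The cocharacters* (`IsGrading`, `IsGenerated`, `LevelLE`). Let `s` be a closed point of a model of `X` over
a normal scheme of finite type over `ℤ[1/ℓ]`, with good reduction. For each extension of the `p`-adic
valuation to the algebraic numbers, normalised to be one at the number of elements of the residue field,
the slopes of the eigenvalues define a rational cocharacter of the Zariski closure of the group generated by
the semisimple part of the Frobenius element (Serre's Frobenius tori), with weights
`slope - i / 2` on `H^i(X)(i/2)`. The denominators are bounded in terms of `b` (Newton polygons of
isocrystals), so with a number `c` which depends only on `b` the multiples by `c` have integral weights,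
bounded by `w₀ = c dim X / 2`, and they belong to finitely many conjugacy classes under the connected
component `G` of the Zariski closure of `ρ (Γ)`. Let the family of the `conj g P a` be the set of all
cocharacters of `G`, over an algebraic closure `C` of `ℚ_ℓ`, in the classes which occur for a Zariski
dense set of points `s`. They generate `G` (`IsGenerated`): a character of a Frobenius torus on which all
slopes vanish is trivial, by the Weil conjectures (its value would be a root of unity), so for the
Frobenius elements at the points of an open set a fixed power of the image in the quotient of `G` by the
group generated by these cocharacters would be unipotent, and these elements are dense. The slopes of the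
Frobenius elements on `H^j(U)` lie between `max (0, j - d)` and `min (j, d)`, for the points of an open
set, if `U` is smooth of dimension at most `d` (Deligne). So these cocharacters lift to rational
cocharacters of the Zariski closure of the image of `Γ` in the automorphisms of `V × M`, with weights
between `-c d / 2` and `c d / 2` on `M` (`LevelLE` with `w = c d / 2`; the integer `e` takes care of the
denominators of the slopes on `M`, which are not bounded). This holds for all finitely generated
extensions `k'` of `k` with the same cocharacters. (If `k` has characteristic zero and `U` is proper, the
slopes also lie between the smallest and the largest Hodge weight, by Mazur, so the condition on the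
dimension can be replaced by `h^(p,q)(U) = 0` for `|p - q| > d`.)

*Finiteness.* The fields `ℚ_ℓ` can all be embedded into `C = ℂ`. For given `b` and `w₀` there are, up to
conjugation by elements of `GL_b (C)` which preserve the parity, only finitely many connected reductive
groups `G` preserving the parity and generated by cocharacters with weights between `-w₀` and `w₀`: the
maximal torus is the subtorus of the diagonal group generated by some of finitely many cocharacters, the
roots are differences of weights, and `G` is determined up to conjugation by its root datum and the
weights with multiplicities; and each `G` has finitely many classes of such cocharacters. (This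
classical fact is not formalised; the Lean theorem gives one `N` for each set `P` of cocharacters, for
all fields `K ⊂ C`, all groups `Γ`, all `ρ`, `B`, all conjugates of `P` (matrices `g`), all `w` and all `τ`.)

*The proof.* Let `G` be the group generated by the cocharacters `λ_a`.

(a) (helper19) There is a finite sequence `a_1, …, a_r` such that the products
`λ_{a_1}(t_1) ⋯ λ_{a_r}(t_r)` are dense in `G`: the ideals of polynomials vanishing on such products are
prime, and a sequence with an ideal of minimal height is good.

(b) Call a tensor `v` in `V_C^{⊗ n}` of level at most `w` if the weights of all `λ_a` on the
representation generated by `v` lie between `-w` and `w`. The matrix coefficients `g ↦ (g v)_i` on `G`,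
for all such `v` and **all** `n`, are polynomials in the matrix entries of `g` of **explicitly bounded
degree** (`Pool.Agent.K6.H94.XB.fnl`, `fnlp`): at the generic product (with `r ≤ b ^ 2` parameters such that
`r` of its entries are algebraically independent) they are Laurent polynomials in `t_1, …, t_r` with
exponents between `-w` and `w`. Counting dimensions gives a relation of bounded degree between `s`,
`θ + s f` and `r` independent linear forms in the entries, for each such function `f`, where `θ` is a linear
form which is a primitive element; differentiation with respect to `s` at `s = 0` gives `f = P / Q` with
polynomials `P`, `Q` of bounded degree in the entries (Gauss' lemma shows that `Q ≠ 0`). So there is a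
common denominator of bounded degree for all these functions; the space `J` of all such denominators is
stable under translations by `G`; with a basis `b_l` of `J` dual to the evaluations at points `y_l` of `G`
one gets `f(x) h(1) = ∑ (h(y_l x) f(x)) b_l(x⁻¹)` for `h` in `J`, and `x⁻¹` is a linear function of `x`,
because `G` preserves the form `B`. For the even classes one works with the group generated by `G` and the
parity operator; the functions on its two components are separated by even and odd monomials. (The
pieces of this proof are by helper37, helper61, helper35, helper44, helper40, helper39, helper29 and
helper78.)

(c) The slices of a Tate class `y` in `V^{⊗ n} ⊗ M` span a space `Q` in `V^{⊗ n}` which has level at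
most `w`, by the hypothesis on `M`. By (b) the elements of the group algebra which vanish on `V^{⊗ m}`,
`m ≤ T(d)`, vanish on `Q`, so by the double commutant theorem (helper19) the identity of `Q` is a sum of
products `A_i ψ_i`, where `ψ_i : Q → V^{⊗ m_i}` and `A_i : V^{⊗ m_i} → Q` are equivariant, preserve the
parity, and `m_i ≤ T(d)`. So `y` is the sum of the images, under the correspondences given by the Tate
classes `A_i`, of the Tate classes `ψ_i(y)` in `V^{⊗ m_i} ⊗ M`. The complete reducibility of the
representations of `Γ` over `K` is obtained by descent from that of `G` over `C`.

(d) (helper30) The invariants of `G` and of the parity operator in the `V_C^{⊗ n}` are generated by those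
with `n ≤ N`, by the theorems of Weyl (polarisation, reductive groups) and Hilbert, and the Tate classes
are these invariants over `K`.
-/

set_option autoImplicit false

namespace Pool.Agent.Results.MP_2a05c8_ag.OnePowerForAllSmooth

open Matrix Pool.Agent.K6.H94.TG

/-- **Tate classes on the products `U × X ^ n`.** Let `P` be a family of gradings of `C^b` with weights
between `-w₀` and `w₀`, preserving a parity `p`, whose cocharacters generate a reductive group. There is
one `N` such that for all subfields `K` of `C`, all representations `ρ` of groups `Γ` on `K^b` with an
invariant form `B` (both preserving the parity) whose connected monodromy group is generated by a conjugate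
of `P`, all natural numbers `w` and **all** representations `τ` of level at most `w` with a parity `q`:
the Tate classes of even degree in all `V^{⊗ n}` are generated by those with `n ≤ N`, and, with these, the
Tate classes of even degree in all `V^{⊗ n} ⊗ M` are generated by those with
`n ≤ (2 (b ^ 2 + 2) (2 w₀ + w + 2)) ^ (2 (b ^ 2 + 1))`. -/
theorem result {C : Type} [Field C] [CharZero C] {ι : Type} [Fintype ι] [DecidableEq ι] {A : Type}
    (P : A → ℤ → Matrix ι ι C) (w₀ : ℕ) (p : ι → Bool) (hP : ∀ a, IsGrading (P a) w₀)
    (hPp : ∀ a k, PreservesParity p (P a k)) (hred : GeneratesReductive P w₀) :
    ∃ N : ℕ, ∀ (K : Type) [Field K] [Algebra K C] (Γ : Type) [Group Γ] (ρ : Γ →* Matrix ι ι K)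
      (B : Matrix ι ι K) (g : (Matrix ι ι C)ˣ), PreservesParity p (g : Matrix ι ι C) →
      IsParity p ρ → PreservesParity p B →
      (∀ γ, (ρ γ)ᵀ * B * ρ γ = B) → IsUnit B → IsGenerated ρ (conj g P) w₀ →
      ∀ (w : ℕ) (μ : Type) [Fintype μ] [DecidableEq μ] (q : μ → Bool) (τ : Γ →* Matrix μ μ K),
      IsParity q τ → LevelLE ρ (conj g P) w₀ τ w →
      ∀ (Cl : ∀ n, Submodule K ((Fin n → ι) → K)) (S : ∀ n, Submodule K ((Fin n → ι) → μ → K)),
        IsSystem p B Cl S → (∀ m ≤ N, ∀ x, IsEvenTate p ρ m x → x ∈ Cl m) →
        (∀ n x, IsEvenTate p ρ n x → x ∈ Cl n) ∧
          ((∀ m ≤ (2 * (Fintype.card ι ^ 2 + 2) * (2 * w₀ + w + 2)) ^
              (2 * (Fintype.card ι ^ 2 + 1)), ∀ y, IsEvenTateM p q ρ τ m y → y ∈ S m) →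
            ∀ n y, IsEvenTateM p q ρ τ n y → y ∈ S n) :=
  Pool.Agent.K6.H94.XB.main_evenS hP hPp hred

end Pool.Agent.Results.MP_2a05c8_ag.OnePowerForAllSmooth
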