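import Mathlib
import Pool.Agent.TH115.GD.Defs
import Pool.Agent.K6.H71.PT.Stm
import Pool.Agent.K6.H71.PT.Defs
import Pool.Agent.K6.H71.PT.Low
import Pool.Agent.K6.H71.PS.Ell
import Pool.Agent.K6.H71.PS.Low4

/-!
# The Tate conjecture at `p` for the surfaces `w ^ q = D ^ n f(x / D, t)` over all the coverings of the line
# whose Galois closure has degree a power of `p`, and for all the surfaces `w ^ q = f₀(x) - hⁿ(z)`,
# `h = X ^ p + u`, over `k₀(u)`

Let `p` be a prime, `q > 1` a power of `p`, `k` a field whose characteristic is not `p` (for example a
finitely generated field), `K = k(t)`, `k'` a separable closure of `k`, `F = k'(t)`, and `k₁` a field between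
`k` and `k'` which contains the `q`-th roots of unity. Let `f(x, t) = 0` be a curve over `k`, which is a
branch curve over `k₁` (`IsBranchCurve`): smooth, absolutely irreducible, `f` monic in `x` of degree `n` prime
to `p`, without units besides the constants and without ideal classes of order `p` over `k₁`. A prime of
`k₁[t]` is inert if `f` is irreducible modulo this prime. Examples: `f = f₀(x) - t` for ALL monic `f₀` of
degree prime to `p` with nonzero derivative (`t - c` is inert if `f₀ - c` is irreducible), and
`f = g(x) - t ^ 2` for the elliptic curves `t ^ 2 = g(x)` without points of order `p` over `k₁`.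

Theorem. Let `D` be a polynomial over `k`, not zero, all of whose prime factors over `k₁` are inert (for
example `D = 1`), and `J` the Jacobian of the curve `w ^ q = D ^ n f(x / D, t)` over `K` (its genus is
`(q - 1)(n - 1) / 2`).

(1) Let `N / K` be a finite Galois extension whose degree is a power of `p` (any `p`-group, possibly with an
extension of the constants), unramified except above inert primes and above `t = ∞`. Then for EVERY field `L`
between `K` and `N` the Tate conjecture at `p` holds for the surface with this generic fibre over the curve
with the function field `L`; there are no classes besides zero in `V_p Sel(J / F L)` which are fixed by the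
Galois group of `L`. If `k₁ = k` then `J(L)` is divisible by `p` (so it is finite of order prime to `p` if `k`
is finitely generated, by the theorem of Lang and Neron).

(2) This holds also for all the fields `L` which are obtained from `K` by adjoining finitely many times a
`p`-th root, if `L` is unramified except above inert primes and infinity. (`L / K` need not be contained in
such a Galois extension.)

(3) Let `h_i = e_i X ^ p + c_i` be polynomials over `k` and `H = h_0 ∘ ... ∘ h_{n-1}`. The critical values of
`H` are `β_i = h_0(h_1(... h_i(0)))`, `i < n`. If `f(x, β_i)` is irreducible over `k₁` for all `i < n` then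
this holds for `L = K(z)`, where `H(z) = t`; that is, for the surface with the equation `w ^ q = f(x, H(z))`
(twisted by `D(H(z))`).

(4) The curves `f = f₀(x) - t` over ANY field `k` of characteristic not `p`: if the degree of `f₀` is prime to
`p - 1` or `k` contains the `q`-th roots of unity, all the conditions in (1), (2), (3) can be stated over
`k₁ = k`. For `p = 2` there is no condition.

(5), (6) The two families of branch curves.

(7) Over the fields `k = k₀(u)` there is no condition in (3) for the curves `f = f₀(x) - t`, `f₀` over `k₀`,
if `e_i ≠ 0` is in `k₀` and the `c_i` are polynomials in `u` over `k₀` which have the same degree `d > 0`,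
prime to the degree of `f₀`, and no roots of unity are needed. For example let `k₀` be ANY finitely generated
field of characteristic not `p`, for example `k₀ = ℚ`, let `f₀` be ANY polynomial over `k₀` of degree prime to
`p` with `f₀' ≠ 0`, and `h = X ^ p + u`. Then for ALL `n` and ALL powers `q` of `p` the Tate conjecture at `p`
holds for the surface `w ^ q = f₀(x) - hⁿ(z)` over `k₀(u)` with the coordinates `x`, `z`, `w`, where `hⁿ` is
the `n`-th iterate. The geometric genus of these surfaces tends to infinity with `n`.

The starting result `MP_677d84_ag.InertTwists` is the case `L = K`, `k₁ = k`, where the base is the line. In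
(1) the genus of the base curve is not bounded, and the group is any `p`-group. The
starting results `MP_ff7320_nt.UniformOverTwoExtensions` and `MP_89bcae_ag.SurfacesOverTwoCovers` treat the
Galois extensions of 2-power degree for `p = q = 2`, `k` finite and a positive proportion of all `f`, with the
arithmetic Selmer groups and by the same descent along a 2-group.

The statement of the Tate conjecture (`TateOver`, in `Pool.Agent.K6.H71.PT.Stm`): all the classes in
`V_p Sel(J / F L)`, where `F L` is the function field over `k'`, that are fixed by the Galois group of `L`,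
come from `J(L)`. Here the elements of the Selmer group are the continuous cocycles of `Gal(Ω / F L)` with
values in `T_p J` which are coboundaries over all completions of `F L`; `Ω` is a separable closure of `F`.
This is the Tate conjecture for divisors on the surface at `p`: `Br` of the surface over `k'` is the
Tate-Shafarevich group over `F L` (Grothendieck, Artin); there is a rational section, the point at infinity.

Proof. Let first `k₁ = k`. The `q`-th roots of unity act on `J`. Let `λ = 1 - ζ`, it divides `p` in the
endomorphisms, and a power of it is a multiple of `p`. For a field `L` consider the classes in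
`H¹(F L, J[λ])` which are fixed by `Gal(Ω / L)` and locally trivial at the places NOT above the inert primes
and infinity (there is no condition at these). For `L = K` all these classes are trivial: such a class is
given by an element `z` of the function field of the branch curve whose norm is a `p`-th power, with
valuations divisible by `p` outside the inert primes; there is only one prime of the branch curve above an
inert prime and its degree is prime to `p`, so the valuation there is divisible by `p` too. Let `L' / L` be a
cyclic extension of degree `p` that is ramified only above inert primes and infinity, with the group `G`. If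
`M ≠ 0` is the group of these classes over `L'` then `M` is `p`-torsion and `G` is a `p`-group which acts on
`M` locally finitely, so there is a class `≠ 0` in `M` fixed by `G`; such a class comes from `L` (this uses
`J[λ](F L') = 0`), a contradiction. As the group is a `p`-group each field `L` is reached by such steps.
Finally if there are no classes over `L` the Tate conjecture at `p` follows, layer by layer
(`Pool.Agent.K6.H71.PS`). In general let `L₁ = L k₁`. The fields `F L` and `F L₁` are the same, and a class
which is fixed by the Galois group of `L` is fixed by the Galois group of `L₁`; so it is zero. In (4) let `k₁`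
be the field of the `q`-th roots of unity over `k`; its degree divides `(p - 1) q / p`, so it is prime to the
degree of `f₀`, and the inert primes remain inert. (7): the critical values `β_i` are polynomials in `u` of
degree `p ^ i d`, and `f₀(x) - β(u)` is irreducible over `k₁(u)` if the degrees of `f₀` and `β` are relatively
prime, for all fields `k₁`.
-/

namespace Pool.Agent.Results.MP_2a05c8_ag.PrimePowerCovers

open Polynomial Pool.Agent.TH115.GD Pool.Agent.K6.H71.PT

open Pool.Agent.K6.H71.PS (allCovers allComp allRoots graph_branch cubic_branch allOver graphOver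
  generic_low)

open scoped Classical

/-- (1) Galois extensions of `p`-power degree, (2) towers of `p`-th roots, (3) compositions of the
polynomials `e X ^ p + c`, for all the curves over `k` which are branch curves over the field `k₁` with the
`q`-th roots of unity. -/
def Coverings (p s : ℕ) : Prop :=
  ∀ (k k₁ k' K F : Type) [Field k] [Field k₁] [Field k'] [Algebra k k₁] [Algebra k k']
    [Algebra k₁ k'] [IsScalarTower k k₁ k'] [Field K] [Algebra k[X] K] [Field F] [Algebra k'[X] F]
    [IsFractionRing k'[X] F] [Algebra K F] (ζ : k₁), IsPrimitiveRoot ζ (p ^ (s + 1)) →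
    IsTower k k' K F → ∀ f : k[X][X], IsBranchCurve p (overK k₁ f) →
      CoversOver k' K F k₁ p (p ^ (s + 1)) f ∧ RootTowersOver k' K F k₁ p (p ^ (s + 1)) f ∧
        CompositionsOver k' K F k₁ p (p ^ (s + 1)) f

/-- `J(L)` is divisible by `p` in (1), (2), (3) if `k₁ = k`. -/
def DivisiblePoints (p s : ℕ) : Prop :=
  ∀ (k k' K F : Type) [Field k] [Field k'] [Algebra k k'] [Field K] [Algebra k[X] K]
    [Field F] [Algebra k'[X] F] [IsFractionRing k'[X] F] [Algebra K F] (ζ : k),
    IsPrimitiveRoot ζ (p ^ (s + 1)) → IsTower k k' K F → ∀ f : k[X][X], IsBranchCurve p f →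
      AllCovers k' K F p (p ^ (s + 1)) f ∧ AllRootTowers k' K F p (p ^ (s + 1)) f ∧
        AllCompositions k' K F p (p ^ (s + 1)) f

/-- (4) The curves `f₀(x) = t`, with the conditions in (1), (2), (3) over `k`, if the degree of `f₀` is prime
to `p - 1` or `k` contains the `q`-th roots of unity. -/
def GraphCoverings (p s : ℕ) : Prop :=
  ∀ (k k' K F : Type) [Field k] [Field k'] [Algebra k k'] [Field K] [Algebra k[X] K]
    [Field F] [Algebra k'[X] F] [IsFractionRing k'[X] F] [Algebra K F], IsTower k k' K F →
    (p : k) ≠ 0 → ∀ f₀ : k[X], f₀.Monic → p.Coprime f₀.natDegree → derivative f₀ ≠ 0 →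
      ((∃ ζ : k, IsPrimitiveRoot ζ (p ^ (s + 1))) ∨ (p - 1).Coprime f₀.natDegree) →
      CoversOver k' K F k p (p ^ (s + 1)) (f₀.map C - C X) ∧
        RootTowersOver k' K F k p (p ^ (s + 1)) (f₀.map C - C X) ∧
        CompositionsOver k' K F k p (p ^ (s + 1)) (f₀.map C - C X)

/-- (5) The curves `f₀(x) = t` are branch curves. -/
def Graphs (p : ℕ) : Prop :=
  ∀ (k : Type) [Field k], (p : k) ≠ 0 → ∀ f₀ : k[X], f₀.Monic → p.Coprime f₀.natDegree →
    derivative f₀ ≠ 0 → IsBranchCurve p (f₀.map C - C X)

/-- (6) The elliptic curves `t ^ 2 = g(x)` without points of order `p` over `k` are branch curves. -/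
def EllipticCurves (p : ℕ) : Prop :=
  ∀ (k : Type) [Field k] (a b c : k), (2 : k) ≠ 0 → (cubic a b c).Separable →
    (∀ P : (⟨0, a, 0, b, c⟩ : WeierstrassCurve k).toAffine.Point, p • P = 0 → P = 0) →
    IsBranchCurve p ((cubic a b c).map C - C (X ^ 2))

/-- (7) `k = k₀(u)` and `h_i = e_i X ^ p + c_i` with `e_i ≠ 0` in `k₀` and `c_i` in `k₀[u]` of degree `d`. The
fields `L = K(z)` with `h_0 (h_1 (... h_{n-1}(z))) = t`, for the curves `f₀(x) = t`, `f₀` over `k₀`, and their
twists by constants `δ`. -/
def GenericIterates (p s : ℕ) : Prop :=
  ∀ (k₀ k k' K F : Type) [Field k₀] [Field k] [Algebra k₀[X] k] [IsFractionRing k₀[X] k]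
    [Field k'] [Algebra k k'] [Field K] [Algebra k[X] K] [Field F] [Algebra k'[X] F]
    [IsFractionRing k'[X] F] [Algebra K F], IsTower k k' K F → (p : k₀) ≠ 0 →
    ∀ (f₀ : k₀[X]) (e : ℕ → k₀) (c : ℕ → k₀[X]) (d : ℕ), f₀.Monic →
      p.Coprime f₀.natDegree → derivative f₀ ≠ 0 → (∀ i, e i ≠ 0) → 0 < d →
      d.Coprime f₀.natDegree → (∀ i, (c i).natDegree = d) → ∀ (n : ℕ) (z : Sep F),
      IsRootOf (K := K) (pcomp p (fun i => algebraMap k₀[X] k (C (e i)))
        (fun i => algebraMap k₀[X] k (c i)) n) z → ∀ δ : k, δ ≠ 0 →
      TateOver p (p ^ (s + 1)) (twist K ((f₀.map ((algebraMap k₀[X] k).comp C)).map C - C X) (C δ))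
        (IntermediateField.adjoin K {z}) k' ∧
      NoClasses p (p ^ (s + 1)) (twist K ((f₀.map ((algebraMap k₀[X] k).comp C)).map C - C X) (C δ))
        (IntermediateField.adjoin K {z}) k'

/-- The main theorem, the branch curves, and the generic iterates. -/
theorem result :
    (∀ p s : ℕ, p.Prime → Coverings p s ∧ DivisiblePoints p s ∧ GraphCoverings p s ∧
      GenericIterates p s) ∧
    (∀ p : ℕ, p.Prime → Graphs p ∧ (p ≠ 3 → EllipticCurves p)) := by
  refine ⟨fun p s hp => ⟨?_, ?_, ?_, ?_⟩, fun p hp => ⟨?_, fun h3 => ?_⟩⟩
  · intro k k₁ k' K F _ _ _ _ _ _ _ _ _ _ _ _ _ ζ hζ hT f hf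
    exact allOver hT hp hζ hf
  · intro k k' K F _ _ _ _ _ _ _ _ _ ζ hζ hT f hf
    exact ⟨allCovers hT hp hζ hf, allRoots hT hp hζ hf, allComp hT hp hζ hf⟩
  · intro k k' K F _ _ _ _ _ _ _ _ _ hT hpk f₀ hm hc hd h
    exact graphOver hT hp s hpk hm hc hd h
  · intro k₀ k k' K F _ _ _ _ _ _ _ _ _ _ _ _ hT hpk f₀ e c d hm hco hd he hd0 hdc hc n z hz δ hδ
    exact generic_low hT hp s hpk hm hco hd he hd0 hdc hc n hz hδ
  · intro k _ hpk f₀ hm hc hd
    exact graph_branch hp hpk hm hc hd
  · intro k _ a b c h2 hs hP
    exact cubic_branch hp h3 h2 hs hP

end Pool.Agent.Results.MP_2a05c8_ag.PrimePowerCovers
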